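import Pool.Agent.H.MP_f6aa92_nt.A

namespace Pool.Agent.Results.MP_f6aa92_nt.No

def a : ℕ → ℕ
  | 0 => 1
  | 1 => 1
  | 2 => 1
  | n + 3 => a (n + 2) + Nat.gcd (a (n + 2)) (a n)

lemma br (n : ℕ) : a n = Pool.Agent.H.MP_f6aa92_nt.a n := by
  induction n using Nat.strong_induction_on with
  | _ n ih =>
    match n with
    | 0 => rfl
    | 1 => rfl
    | 2 => rfl
    | n + 3 => rw [a, Pool.Agent.H.MP_f6aa92_nt.a, ih (n + 2) (by omega), ih n (by omega)]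

theorem result : (∀ n, a (n + 1) ≤ a n + 89 ∧ a (n + 1) ≠ a n + 28 ∧ a (n + 1) ≠ a n + 30) ∧
    ¬ ∀ d, 1 ≤ d → ∃ n, a (n + 1) = a n + d := by
  simp only [br]
  exact Pool.Agent.H.MP_f6aa92_nt.main

end Pool.Agent.Results.MP_f6aa92_nt.No
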